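import Pool.Agent.P.MP_43acf5_nt.Q.Final

namespace Pool.Agent.Results.MP_43acf5_nt.Explicit

universe u v

/-- Uniform boundedness of the torsion of Drinfeld `𝔽_q[T]`-modules of rank `r` over extensions
of `𝔽_q(T)` of degree at most `d`, with the explicit bound `q ^ (1700 r ^ 4 d ^ 4)`. -/
theorem result (q r d : ℕ) (hr : 1 ≤ r) :
    ∀ (Fq : Type u) [Field Fq] [Fintype Fq], Fintype.card Fq = q →
    ∀ (L : Type v) [Field L] [Algebra (RatFunc Fq) L] [FiniteDimensional (RatFunc Fq) L],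
      Module.finrank (RatFunc Fq) L ≤ d →
    ∀ g : ℕ → L, g r ≠ 0 →
    ∀ phiT : L → L,
      (∀ x, phiT x =
        algebraMap (RatFunc Fq) L RatFunc.X * x + ∑ j ∈ Finset.Icc 1 r, g j * x ^ q ^ j) →
    ∀ phi : Polynomial Fq → L → L,
      (∀ a x, phi a x = ∑ i ∈ Finset.range (a.natDegree + 1),
        algebraMap (RatFunc Fq) L (RatFunc.C (a.coeff i)) * phiT^[i] x) →
      {α : L | ∃ a : Polynomial Fq, a ≠ 0 ∧ phi a α = 0}.Finite ∧
        {α : L | ∃ a : Polynomial Fq, a ≠ 0 ∧ phi a α = 0}.ncard ≤ q ^ (1700 * r ^ 4 * d ^ 4) :=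
  fun Fq _ _ hFq L _ _ _ hd g _ phiT hT phi hphi =>
    Pool.Agent.P.MP_43acf5_nt.torsion_explicit q r d hr Fq hFq L hd g phiT hT phi hphi

end Pool.Agent.Results.MP_43acf5_nt.Explicit
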